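import Pool.Agent.Helper13GL.Main

/-!
# The Abel-Jacobi kernels of the powers of a variety over `ℚ̄`: the asymptotic law

Let `X` be a smooth projective variety of dimension `d` over `ℚ̄` with total Betti number `b` which
satisfies the sign conjecture `C⁺` (the projector of `H^*(X)` to its even part is algebraic: known for
products of curves, surfaces, abelian varieties and complete intersections). For `n ≥ 0` let `ρ(n)` be
the rank of the group of cycles of codimension `d n` on `X^{2n}` modulo numerical equivalence, and let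
`κ(n)` be the dimension, a number or infinity, of the kernel of the Abel-Jacobi map on
`CH^{dn}_hom(X^{2n})_ℚ`.

*Theorem.* `κ(n) / ρ(n)` converges to a limit `A` which is a natural number or infinity. `A = 0` if and
only if for all powers `X^e` and all codimensions `a` the Abel-Jacobi map is injective on
`CH^a_hom(X^e)_ℚ`; then `CH^a_hom(X^e)_ℚ = 0` if `H^{2a-1}(X^e) = 0`. If `A` is finite then the Chow motive
of `X` is Kimura-finite. If `2 κ(n) < ρ(n)` for one `n ≥ 128 (e+1)² b^{4e+12}` then the Abel-Jacobi map is
injective on `CH^a_hom(X^e)_ℚ` for all `a`.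

The setting: `C` is the category of Chow motives over `ℚ̄` with rational coefficients, `T = h(X)`,
`D = ℚ(1)`, and `mot T D e a` is `h(X^e)(a)`, so that `𝟙 ⟶ mot T D e a` is `CH^a(X^e)_ℚ`; `R` is the singular
cohomology, with coefficients in an algebraically closed field `K ⊇ ℚ`, with its even and its odd
part. The morphisms whose realisation is zero are the homologically trivial ones.

The proof uses the law for the dimensions of the values of additive functors on the powers of an
object of the starting library (N64), applied to the functor of the cycles in the kernel of the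
Abel-Jacobi map.
-/

set_option autoImplicit false

open CategoryTheory Limits MonoidalCategory Module Filter Topology
open Pool.Agent.Y112.SR Pool.Agent.Y112.KD Pool.Agent.N64.AF Pool.Agent.Helper13GL
open scoped ENNReal

namespace Pool.Agent.Results.MP_32dfd1_ag.AsymptoticCriterion

universe v u w

variable {C : Type u} [Category.{v} C] [Preadditive C] [MonoidalCategory C]
  [MonoidalPreadditive C] [SymmetricCategory C] [RightRigidCategory C]
  [Linear ℚ C] [MonoidalLinear ℚ C] [IsIdempotentComplete C]
  {K : Type w} [Field K] [IsAlgClosed K] [Algebra ℚ K] {R : SuperRealisation C K}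

/-- The question for `Z = h(Y)(m)`: if the intermediate Jacobian is zero (that is, `H^{2m-1}(Y) = 0`)
then there are no homologically trivial classes of infinite order. -/
def QuestionFor {hR : IsReal ℚ R} (Φ : AbelJacobi hR) (Z : C) : Prop :=
  Subsingleton (Φ.J Z) → ∀ α : 𝟙_ C ⟶ Z, R.H.map α = 0 → α = 0

/-- The sequence `κ`, divided by the numerical ranks for `X^{2n}` in the middle codimension `d n`,
converges to `A`. -/
def ConvergesTo (T D : C) (d : ℕ) (κ : ℕ → ℕ∞) (A : ℕ∞) : Prop :=
  Tendsto (fun n => ((κ n : ℕ∞) : ℝ≥0∞) / numRank ℚ (mot T D (2 * n) (d * n))) atTop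
    (𝓝 (A : ℝ≥0∞))

theorem result {hR : IsReal ℚ R} (Φ : AbelJacobi hR) (T D : C) (d : ℕ) (hM : IsMotive T D d)
    (hT : R.CPlus T) :
    (∃ A : ℕ∞, ConvergesTo T D d (fun n => Φ.kernelDim (mot T D (2 * n) (d * n))) A ∧
      (A = 0 ↔ ∀ e a, a ≤ d * e → Φ.InjectiveOn (mot T D e a)) ∧
      (A ≠ ⊤ → Pool.Agent.R905.IsKimuraFinite T)) ∧
    (∀ e n, 128 * (e + 1) ^ 2 * bt R T ^ (4 * e + 12) ≤ n →
      2 * Φ.kernelDim (mot T D (2 * n) (d * n)) < numRank ℚ (mot T D (2 * n) (d * n)) →
      ∀ a, a ≤ d * e → Φ.InjectiveOn (mot T D e a)) ∧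
    ∀ Z, Φ.InjectiveOn Z → QuestionFor Φ Z := by
  obtain ⟨A, h1, h2, h3, h4⟩ := aj_law Φ hM hT
  refine ⟨⟨A, h1, h2, h3⟩, h4, fun Z hZ h0 α hα => ?_⟩
  have h1 : Φ.aj Z ⟨α, hα⟩ = Φ.aj Z 0 := @Subsingleton.elim _ h0 _ _
  exact congrArg Subtype.val (hZ h1)

end Pool.Agent.Results.MP_32dfd1_ag.AsymptoticCriterion
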