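import Pool.Agent.Helper13GL.Even

/-!
# The question for all varieties without odd cohomology is a weak bound by the total Betti number

For a smooth projective variety `X` over `ℚ̄` with `H^i(X, ℚ) = 0` for all odd `i` the question is whether
`CH^a_hom(X)_ℚ = 0` for all `a`. Let `B(X)` be the total Betti number of `X`.

*Theorem.* The answer is positive for all these `X` and all `a` if and only if for every `A` there is a
constant `c` such that

  `dim CH^m_hom(X)_ℚ ≤ c · B(X) / (log B(X))^A`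

for all these `X` of even dimension `2 m` and positive dimension. A bound
`dim CH^m_hom(X)_ℚ ≤ c · B(X)^{1-ε}` for these `X`, with one `ε > 0` and one `c`, is sufficient (second
part of `result`).

So it suffices to bound the homologically trivial cycles in the middle codimension of the
even-dimensional varieties, by a little less than the trivial order of magnitude of the group of all
cycles modulo homological equivalence (which has rank at most `B(X)`), uniformly in `X`.

The same holds for every class of such varieties which is closed under powers.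

The proof: a homologically trivial cycle of infinite order on `X` would give, by the law for the
dimensions of additive functors on the powers of an object of the starting library (N64), at least
`b^{2n} / (2 (n+1)^{b²})` independent ones in the middle codimension of `X^{2n}`, for `b = B(X)` and all
large `n`; this is more than a constant times `B(X^{2n}) / (log B(X^{2n}))^{b²+1}`.
-/

set_option autoImplicit false
set_option linter.unusedSectionVars false

open CategoryTheory MonoidalCategory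
open Pool.Agent.Y112.SR Pool.Agent.Y112.KD Pool.Agent.N64.AF Pool.Agent.Helper13GL

namespace Pool.Agent.Results.MP_32dfd1_ag.BettiNumberBound

universe v u w x

variable {C : Type u} [Category.{v} C] [Preadditive C] [MonoidalCategory C]
  [MonoidalPreadditive C] [SymmetricCategory C] [RightRigidCategory C]
  [Linear ℚ C] [MonoidalLinear ℚ C] [IsIdempotentComplete C]
  {K : Type w} [Field K] [IsAlgClosed K] [Algebra ℚ K] {R : SuperRealisation C K}

/-- A class of smooth projective varieties `X` of positive dimension without odd cohomology, closed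
under powers. `T X` is the Chow motive `h(X)`, `dim X` the dimension, `D = ℚ(1)`, and `bt R (T X)` is
the total Betti number of `X`. -/
structure IsEvenClass (R : SuperRealisation C K) (D : C) {V : Type x} (T : V → C) (dim : V → ℕ) :
    Prop where
  motive : ∀ X, IsMotive (T X) D (dim X)
  even : ∀ X, R.par (T X) = 𝟙 _
  two_le : ∀ X, 2 ≤ bt R (T X)
  power : ∀ X n, 0 < n → ∃ Y, dim Y = n * dim X ∧ Nonempty (T Y ≅ tp (T X) n)

/-- `dim CH^m_hom(X)_ℚ ≤ c · B(X) / (log B(X))^A` for all `X` in the class of even dimension `2 m`. -/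
def MiddleBound (hR : IsReal ℚ R) (D : C) {V : Type x} (T : V → C) (dim : V → ℕ) (A : ℕ) (c : ℝ) :
    Prop :=
  ∀ X m, dim X = 2 * m → ∃ k : ℕ, homDim hR (T X ⊗ tp D m) = k ∧
    (k : ℝ) ≤ c * bt R (T X) / Real.log (bt R (T X)) ^ A

omit [Linear ℚ C] [MonoidalLinear ℚ C] [IsIdempotentComplete C] [IsAlgClosed K] [Algebra ℚ K] in
lemma bt_iso {Y Z : C} (i : Y ≅ Z) : bt R Y = bt R Z :=
  LinearEquiv.finrank_eq (R.H.mapIso i).toLinearEquiv

theorem main (hR : IsReal ℚ R) (D : C) {V : Type x} (T : V → C) (dim : V → ℕ)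
    (hV : IsEvenClass R D T dim) :
    (∀ X a, a ≤ dim X → NoHomTrivial R (T X ⊗ tp D a)) ↔
      ∀ A : ℕ, ∃ c : ℝ, MiddleBound hR D T dim A c := by
  constructor
  · intro h A
    refine ⟨0, fun X m hm => ⟨0, ?_, ?_⟩⟩
    · rw [(h X m (by omega)).homDim]
      rfl
    · simp
  · intro h X a ha
    set b := bt R (T X) with hb
    have hb2 : 2 ≤ b := hV.two_le X
    obtain ⟨c, hc⟩ := h (b ^ 2 + 1)
    obtain ⟨n, hn⟩ : ∃ n : ℕ, max (2 * c) (128 * (1 + 1) ^ 2 * b ^ (4 * 1 + 12) + 3 : ℕ) < n :=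
      exists_nat_gt _
    have hn1 : 2 * c < n := lt_of_le_of_lt (le_max_left _ _) hn
    have hn2 : 128 * (1 + 1) ^ 2 * b ^ (4 * 1 + 12) + 3 < n := by
      exact_mod_cast lt_of_le_of_lt (le_max_right _ _) hn
    have hn0 : 3 ≤ n := by omega
    obtain ⟨Y, hY, ⟨i⟩⟩ := hV.power X (2 * n) (by omega)
    obtain ⟨k, hk, hk'⟩ := hc Y (dim X * n) (by rw [hY]; ring)
    have hBY : bt R (T Y) = b ^ (2 * n) := by rw [bt_iso i, bt_tp]
    have hk2 : homDim hR (mot (T X) D (2 * n) (dim X * n)) = k := by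
      rw [← hk]
      exact (homDim_congr hR (whiskerRightIso i _)).symm
    -- the inequality
    have hlog : (n : ℝ) + 1 ≤ Real.log (bt R (T Y)) := by
      rw [hBY]
      push_cast
      rw [Real.log_pow]
      have h1 : Real.log 2 ≤ Real.log b :=
        Real.log_le_log (by norm_num) (by exact_mod_cast hb2)
      have h2 : (0.6931471803 : ℝ) < Real.log 2 := Real.log_two_gt_d9
      have h3 : (3 : ℝ) ≤ n := by exact_mod_cast hn0
      push_cast
      nlinarith
    have hlt : 2 * (n + 1) ^ (b ^ 2) * k < b ^ (2 * n) := by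
      have hB : (0 : ℝ) < (b : ℝ) ^ (2 * n) := by positivity
      have hn1' : (0 : ℝ) < (n : ℝ) + 1 := by positivity
      have hL : ((n : ℝ) + 1) ^ (b ^ 2 + 1) ≤ Real.log (bt R (T Y)) ^ (b ^ 2 + 1) :=
        pow_le_pow_left₀ hn1'.le hlog _
      have hL0 : (0 : ℝ) < ((n : ℝ) + 1) ^ (b ^ 2 + 1) := by positivity
      have hkey : (k : ℝ) * ((n : ℝ) + 1) ^ (b ^ 2 + 1) ≤ max c 0 * (b : ℝ) ^ (2 * n) := by
        have h1 : (k : ℝ) * Real.log (bt R (T Y)) ^ (b ^ 2 + 1) ≤ c * bt R (T Y) := by
          rwa [le_div_iff₀ (lt_of_lt_of_le hL0 hL)] at hk'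
        have h2 : ((bt R (T Y) : ℕ) : ℝ) = (b : ℝ) ^ (2 * n) := by
          rw [hBY]
          push_cast
          rfl
        rw [h2] at h1
        calc (k : ℝ) * ((n : ℝ) + 1) ^ (b ^ 2 + 1)
            ≤ k * Real.log ((b : ℝ) ^ (2 * n)) ^ (b ^ 2 + 1) := by
              rw [← h2]
              exact mul_le_mul_of_nonneg_left hL (Nat.cast_nonneg _)
          _ ≤ c * (b : ℝ) ^ (2 * n) := h1
          _ ≤ max c 0 * (b : ℝ) ^ (2 * n) := mul_le_mul_of_nonneg_right (le_max_left _ _) hB.le
      have h3 : 2 * max c 0 < (n : ℝ) + 1 := by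
        rcases le_total c 0 with h4 | h4
        · rw [max_eq_right h4]
          linarith
        · rw [max_eq_left h4]
          linarith
      have h5 : (2 * ((n : ℝ) + 1) ^ (b ^ 2) * k) * ((n : ℝ) + 1) <
          (b : ℝ) ^ (2 * n) * ((n : ℝ) + 1) := by
        calc (2 * ((n : ℝ) + 1) ^ (b ^ 2) * k) * ((n : ℝ) + 1)
            = 2 * (k * ((n : ℝ) + 1) ^ (b ^ 2 + 1)) := by ring
          _ ≤ 2 * (max c 0 * (b : ℝ) ^ (2 * n)) := by linarith
          _ = (2 * max c 0) * (b : ℝ) ^ (2 * n) := by ring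
          _ < ((n : ℝ) + 1) * (b : ℝ) ^ (2 * n) := mul_lt_mul_of_pos_right h3 hB
          _ = (b : ℝ) ^ (2 * n) * ((n : ℝ) + 1) := by ring
      have h6 : 2 * ((n : ℝ) + 1) ^ (b ^ 2) * k < (b : ℝ) ^ (2 * n) :=
        lt_of_mul_lt_mul_right h5 hn1'.le
      exact_mod_cast h6
    have h7 : NoHomTrivial R (mot (T X) D 1 a) := by
      refine even_criterion hR (hV.motive X) (hV.even X) 1 n (by rw [← hb]; omega) ?_ a
        (by rw [mul_one]; exact ha)
      rw [hk2, ← hb]
      exact_mod_cast hlt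
    exact h7.congr (whiskerRightIso (λ_ (T X)) _)

/-- Powers of the logarithm are smaller than all powers. -/
lemma log_pow_le {ε : ℝ} (hε : 0 < ε) (a : ℕ) : ∃ M : ℝ, 0 < M ∧ ∀ b : ℝ, 1 ≤ b →
    Real.log b ^ a ≤ M * b ^ ε := by
  have ha : (0 : ℝ) < a + 1 := by positivity
  have hδ : 0 < ε / (a + 1) := div_pos hε ha
  refine ⟨((ε / (a + 1))⁻¹) ^ a, by positivity, fun b hb => ?_⟩
  have hb0 : 0 ≤ b := by linarith
  have h1 := Real.log_le_rpow_div hb0 hδ
  have h2 : Real.log b ^ a ≤ (b ^ (ε / (a + 1)) / (ε / (a + 1))) ^ a :=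
    pow_le_pow_left₀ (Real.log_nonneg hb) h1 a
  refine h2.trans ?_
  rw [div_eq_inv_mul, mul_pow]
  refine mul_le_mul_of_nonneg_left ?_ (by positivity)
  rw [← Real.rpow_natCast, ← Real.rpow_mul hb0]
  refine Real.rpow_le_rpow_of_exponent_le hb ?_
  rw [div_mul_eq_mul_div, div_le_iff₀ ha]
  nlinarith

/-- `dim CH^m_hom(X)_ℚ ≤ c · B(X) ^ (1 - ε)` for all `X` in the class of even dimension `2 m`. -/
def MiddlePowerBound (hR : IsReal ℚ R) (D : C) {V : Type x} (T : V → C) (dim : V → ℕ)
    (ε c : ℝ) : Prop :=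
  ∀ X m, dim X = 2 * m → ∃ k : ℕ, homDim hR (T X ⊗ tp D m) = k ∧
    (k : ℝ) ≤ c * (bt R (T X) : ℝ) ^ (1 - ε)

/-- A power saving is sufficient. -/
lemma MiddleBound.of_power {hR : IsReal ℚ R} {D : C} {V : Type x} {T : V → C} {dim : V → ℕ}
    (hb2 : ∀ X, 2 ≤ bt R (T X)) {ε c : ℝ} (hε : 0 < ε)
    (h : MiddlePowerBound hR D T dim ε c) (A : ℕ) : ∃ c' : ℝ, MiddleBound hR D T dim A c' := by
  obtain ⟨M, hM, hlog⟩ := log_pow_le hε A
  refine ⟨max c 0 * M, fun X m hX => ?_⟩
  obtain ⟨k, hk, hk'⟩ := h X m hX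
  refine ⟨k, hk, hk'.trans ?_⟩
  have hb2' : (2 : ℝ) ≤ bt R (T X) := by exact_mod_cast hb2 X
  set b : ℝ := ((bt R (T X) : ℕ) : ℝ)
  have hb0 : (0 : ℝ) < b := by linarith
  have hL : 0 < Real.log b ^ A := pow_pos (Real.log_pos (by linarith)) A
  rw [le_div_iff₀ hL]
  have h1 := hlog b (by linarith)
  have h2 : b ^ (1 - ε) * b ^ ε = b := by
    rw [← Real.rpow_add hb0, sub_add_cancel, Real.rpow_one]
  have h3 : (0 : ℝ) ≤ b ^ (1 - ε) := Real.rpow_nonneg hb0.le _
  calc c * b ^ (1 - ε) * Real.log b ^ A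
      ≤ max c 0 * b ^ (1 - ε) * Real.log b ^ A := by
        refine mul_le_mul_of_nonneg_right ?_ hL.le
        exact mul_le_mul_of_nonneg_right (le_max_left _ _) h3
    _ ≤ max c 0 * b ^ (1 - ε) * (M * b ^ ε) := by
        refine mul_le_mul_of_nonneg_left h1 ?_
        exact mul_nonneg (le_max_right _ _) h3
    _ = max c 0 * M * (b ^ (1 - ε) * b ^ ε) := by ring
    _ = max c 0 * M * b := by rw [h2]

/-- The question for the varieties in the class is a weak uniform bound in the middle codimension;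
a bound with a power saving is sufficient. -/
theorem result (hR : IsReal ℚ R) (D : C) {V : Type x} (T : V → C) (dim : V → ℕ)
    (hV : IsEvenClass R D T dim) :
    ((∀ X a, a ≤ dim X → NoHomTrivial R (T X ⊗ tp D a)) ↔
      ∀ A : ℕ, ∃ c : ℝ, MiddleBound hR D T dim A c) ∧
    ((∃ ε > 0, ∃ c : ℝ, MiddlePowerBound hR D T dim ε c) →
      ∀ X a, a ≤ dim X → NoHomTrivial R (T X ⊗ tp D a)) := by
  refine ⟨main hR D T dim hV, ?_⟩
  rintro ⟨ε, hε, c, h⟩
  exact (main hR D T dim hV).2 fun A => MiddleBound.of_power hV.two_le hε h A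

end Pool.Agent.Results.MP_32dfd1_ag.BettiNumberBound
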