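import Pool.Agent.Helper13HD.Main

/-!
# Homologically trivial cycles on hypersurfaces over `ℚ̄`: large dimension suffices

Let `k` be an algebraically closed field of characteristic zero with an embedding into `ℂ`, for the
question `k = ℚ̄`.

*Theorem.* Let `d ≥ 3`. If the question has a positive answer for all smooth hypersurfaces over `k` of
degree `d` and dimension `≥ m`, for some `m`, then it has a positive answer for all smooth hypersurfaces
over `k` of degree `d`: if `H^{2i-1}(X, ℚ) = 0` then the homologically trivial cycles of codimension `i`
on `X` are torsion in `CH^i(X)`.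

So for smooth hypersurfaces it suffices to treat those with `n ≥ f(d)`, where `f` is any function:
Fano hypersurfaces of arbitrarily large index, which are unirational and contain linear subspaces of any
prescribed dimension if `f` grows fast enough. The theorem includes the zero-cycles (`i = n`), whose
analogue for dimension `n + 2 a` is about cycles of dimension `a`.

The proof. Let `X : F = 0` be a smooth hypersurface of degree `d` and dimension `n`. For `1 ≤ i ≤ n` the
kernel of the cycle class map on `CH^i(X)_ℚ` is the kernel of the cycle class map on `CH_{n+1-i}` of the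
affine cone `F = 0`. Let `W` be the smooth hypersurface `F(x) + u^d + u y^{d-1} = 0` of dimension `n + 2`.
Its cone is a finite free covering of `M : F(x) = u t`, by `t = -(y^{d-1} + u^{d-1})`. The open subset
`u ≠ 0` of `M` is `𝔸^{n+2} × 𝔾_m`, its complement is the product of the cone of `X` with a line, and the
localisation sequence gives an injection `CH_{n+1-i}(cone of X) → CH_{n+2-i}(M)`. Everything is compatible
with the cycle classes. So `CH^{i+1}(W)_hom = 0` implies `CH^i(X)_hom = 0` (with rational coefficients).
The known properties of Chow groups and cycle classes are collected in `IsCycle`; the geometry is proved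
with the coordinate rings.
-/

set_option autoImplicit false

namespace Pool.Agent.Results.MP_32dfd1_ag.HypersurfacesOfLargeDimension

open Pool.Agent.Helper13HC Pool.Agent.Helper13HD

variable {k : Type} [Field k]

/-- `NoOdd F i` is the statement `H^{2i-1}(X, ℚ) = 0` for the hypersurface `X : F = 0`. This is its known
value: for `X` smooth of degree `d ≥ 3` and dimension `n` the only nonzero cohomology group of odd degree is
`H^n(X, ℚ)` for odd `n`. -/
def IsOddVanishing (NoOdd : ∀ {n : ℕ}, MvPolynomial (Fin (n + 2)) k → ℕ → Prop) : Prop :=
  ∀ {n d : ℕ} (F : MvPolynomial (Fin (n + 2)) k), 3 ≤ d → IsSmoothForm F d → ∀ i,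
    (NoOdd F i ↔ 2 * i ≠ n + 1)

/-- The question for all smooth hypersurfaces of dimension `n` and degree `d`: if `H^{2i-1}(X, ℚ) = 0` then
the cycle class map on `CH^i(X)_ℚ` is injective, `1 ≤ i ≤ n`. -/
def Question (T : CycleData k) (NoOdd : ∀ {n : ℕ}, MvPolynomial (Fin (n + 2)) k → ℕ → Prop)
    (n d : ℕ) : Prop :=
  ∀ F : MvPolynomial (Fin (n + 2)) k, IsSmoothForm F d → ∀ i, 1 ≤ i → i ≤ n → NoOdd F i →
    HomInjective T F i

theorem result [IsAlgClosed k] [CharZero k] (T : CycleData k) (hT : IsCycle T)
    (NoOdd : ∀ {n : ℕ}, MvPolynomial (Fin (n + 2)) k → ℕ → Prop) (hO : IsOddVanishing NoOdd)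
    {d : ℕ} (hd : 3 ≤ d) (m : ℕ) (h : ∀ n, m ≤ n → Question T NoOdd n d) :
    ∀ n, Question T NoOdd n d := by
  have step : ∀ n, Question T NoOdd (n + 2) d → Question T NoOdd n d := by
    intro n hn F hF i h1 h2 h3
    have h4 : 2 * i ≠ n + 1 := (hO F hd hF i).1 h3
    have hW : IsSmoothForm (susp F (d - 1)) d := by
      obtain ⟨e, rfl⟩ : ∃ e, d = e + 1 := ⟨d - 1, by omega⟩
      exact susp_smooth (by omega) hF
    exact hT.step (by omega) hF h1 h2 (hn _ hW _ (by omega) (by omega)
      ((hO (n := n + 2) _ hd hW _).2 (by omega)))
  have add : ∀ a n, Question T NoOdd (n + 2 * a) d → Question T NoOdd n d := by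
    intro a
    induction a with
    | zero => exact fun n hn => hn
    | succ a ih => exact fun n hn => ih n (step _ hn)
  exact fun n => add m n (h _ (by omega))

end Pool.Agent.Results.MP_32dfd1_ag.HypersurfacesOfLargeDimension
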