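import Pool.Agent.Helper13NF.Main

/-!
# Homologically trivial cycles on hypersurfaces over `ℚ̄`: nearly Fermat hypersurfaces suffice

Let `k` be an algebraically closed field of characteristic zero with an embedding into `ℂ`, for the
question `k = ℚ̄`. A form `F(z_0, …, z_{n+1})` of degree `d` is *nondegenerate* if its restrictions to all
coordinate subspaces are smooth: for every point `z ≠ 0` there is a coordinate `z_a ≠ 0` with
`∂F/∂z_a (z) ≠ 0` (`IsNondegenerate`). Choose for each nondegenerate form `F` and each codimension `i`
numbers `m = m(F, i) ≥ 1` and `r = r(F, i) ≥ 0`, in an arbitrary way, for example both extremely large.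
Consider the smooth hypersurface

`Y : F(z_0^m, …, z_{n+1}^m) + a_1^{dm} + a_2^{dm} + ⋯ + a_{2r}^{dm} = 0`

of degree `d m` and dimension `n + 2 r`.

*Theorem.* The question has a positive answer for all smooth hypersurfaces over `k` of degree at least
three (`H^{2i-1}(X, ℚ) = 0` implies that the homologically trivial cycles of codimension `i` are torsion in
`CH^i(X)`), if and only if for all `n`, `d ≥ 3`, all nondegenerate forms `F` of degree `d` in `n + 2`
variables and `1 ≤ i ≤ n` with `2 i ≠ n + 1` the homologically trivial cycles of codimension `i + r` on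
the hypersurface `Y` are torsion in `CH^{i+r}(Y)`.

So only hypersurfaces have to be considered whose equation is a Fermat equation in all but `n + 2`
variables and which have the large group of automorphisms `μ_m^{n+2} × μ_{dm}^{2r}`; the degree may be
divisible by any given number, the dimension may be arbitrarily large compared with the degree, and
only codimensions near the middle are needed: `|dim Y - 2 codim| = |n - 2 i|` is at most `n`, while the
dimension `n + 2 r` of `Y` is arbitrarily large.

The proof. In general linear coordinates a smooth form is nondegenerate (`exists_coord`). For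
`1 ≤ i ≤ n` the kernel of the cycle class map on `CH^i(X)_ℚ` is the kernel of the cycle class map on
`CH_{n+1-i}` of the affine cone of `X`. The cone of `F(z_0^m, …, z_{n+1}^m) = 0` is obtained from the
cone of `X : F = 0` by adjoining `m`-th roots of the coordinates, and the pull-back to a finite free
covering is injective and compatible with the cycle classes. Finally, the cone of
`G(z) + a^D + b^D = 0` is a finite free covering of the affine variety `G(z) = u t` (`hEquiv`), and
`CH_s` of the cone of `G = 0` is a subgroup of `CH_{s+1}` of that variety, since the complement of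
`u = 0` is `𝔸^{n+2} × 𝔾_m`. The known properties of Chow groups and cycle classes are collected in
`IsCycle`; the geometry is proved with the coordinate rings.
-/

set_option autoImplicit false

namespace Pool.Agent.Results.MP_32dfd1_ag.NearlyFermat

open Pool.Agent.Helper13HC Pool.Agent.Helper13HD Pool.Agent.Helper17.LD

variable {k : Type} [Field k]

/-- `NoOdd F i` is the statement `H^{2i-1}(X, ℚ) = 0` for the hypersurface `X : F = 0`. This is its known
value: for `X` smooth of degree `d ≥ 3` and dimension `n` the only nonzero cohomology group of odd degree is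
`H^n(X, ℚ)` for odd `n`. -/
def IsOddVanishing (NoOdd : ∀ {n : ℕ}, MvPolynomial (Fin (n + 2)) k → ℕ → Prop) : Prop :=
  ∀ {n d : ℕ} (F : MvPolynomial (Fin (n + 2)) k), 3 ≤ d → IsSmoothForm F d → ∀ i,
    (NoOdd F i ↔ 2 * i ≠ n + 1)

/-- The question for all smooth hypersurfaces of dimension `n` and degree `d`: if `H^{2i-1}(X, ℚ) = 0` then
the cycle class map on `CH^i(X)_ℚ` is injective, `1 ≤ i ≤ n`. -/
def Question (T : CycleData k) (NoOdd : ∀ {n : ℕ}, MvPolynomial (Fin (n + 2)) k → ℕ → Prop)
    (n d : ℕ) : Prop :=
  ∀ F : MvPolynomial (Fin (n + 2)) k, IsSmoothForm F d → ∀ i, 1 ≤ i → i ≤ n → NoOdd F i →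
    HomInjective T F i

theorem result [IsAlgClosed k] [CharZero k] (T : CycleData k) (hT : IsCycle T)
    (NoOdd : ∀ {n : ℕ}, MvPolynomial (Fin (n + 2)) k → ℕ → Prop) (hO : IsOddVanishing NoOdd)
    -- the numbers `m(F, i) ≥ 1` and `r(F, i)`
    (m r : ∀ n : ℕ, MvPolynomial (Fin (n + 2)) k → ℕ → ℕ) (hm : ∀ n F i, 0 < m n F i) :
    (∀ n d, 3 ≤ d → Question T NoOdd n d) ↔
      ∀ n d, 3 ≤ d → ∀ F : MvPolynomial (Fin (n + 2)) k, IsNondegenerate F d →
        ∀ i, 1 ≤ i → i ≤ n → 2 * i ≠ n + 1 →
          HomInjective T (joinFermat (powForm (m n F i) F) (m n F i * d) (r n F i))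
            (i + r n F i) := by
  constructor
  · intro h n d hd F hF i h1 h2 h3
    have hD : 3 ≤ m n F i * d := by
      have := Nat.mul_le_mul (hm n F i) hd
      omega
    have hsm := join_smooth (by omega) (powForm_smooth (hm n F i) hF) (r n F i)
    exact h (n + 2 * r n F i) (m n F i * d) hD _ hsm _ (by omega) (by omega)
      ((hO (n := n + 2 * r n F i) _ hD hsm _).2 (by omega))
  · intro h n d hd F hF i h1 h2 h3
    have h4 : 2 * i ≠ n + 1 := (hO F hd hF i).1 h3
    refine Helper13NF.hom_of_power hT (by omega) hF h1 h2 fun G hG => ⟨m n G i, hm n G i, ?_⟩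
    have hD : 2 ≤ m n G i * d := by
      have := Nat.mul_le_mul (hm n G i) hd
      omega
    exact Helper13NF.join_step hT hD (powForm_smooth (hm n G i) hG) h1 h2 _
      (h n d hd G hG i h1 h2 h4)

end Pool.Agent.Results.MP_32dfd1_ag.NearlyFermat
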